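import Pool.Agent.P8H48.LV.Stm
import Pool.Agent.Z125.UN.NI

/-!
# Project LV of helper48, package NOE (helper4): Noetherian induction without open subschemes

`S_NOE` of `Stm.lean` is false as stated; the hypothesis is needed for all localisations of the
integral closed subschemes.
-/

set_option autoImplicit false

open CategoryTheory AlgebraicGeometry Pool.Agent.Y116.UV

namespace Pool.Agent.P8H4.LV

/-- NOE, corrected. -/
def S_NOE' : Prop :=
  ∀ (R : Type) [CommRing R] [IsNoetherianRing R] (P : Sch R → Prop),
    (∀ {X Y : Sch R}, FT False X → Nonempty (X ≅ Y) → P X → P Y) →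
    (∀ {Z X U : Sch R} (i : Z ⟶ X) (j : U ⟶ X), FT False X → IsTriple i j → P Z → P U → P X) →
    (∀ (B : Type) [CommRing B] [Algebra R B], Subsingleton B → P (aff R B)) →
    ∀ (A : Type) [CommRing A] [Algebra R A] [Algebra.FiniteType R A],
    (∀ p : Ideal A, p.IsPrime → ∀ v : A ⧸ p, v ≠ 0 →
      ∃ w : Localization.Away v, w ≠ 0 ∧ P (aff R (Localization.Away w))) →
    P (aff R A)

theorem exists_assoc {A : Type} [CommRing A] [IsNoetherianRing A] (I : Ideal A) (hI : I ≠ ⊤) :
    ∃ x : A, x ∉ I ∧ ∃ p : Ideal A, p.IsPrime ∧ ∀ a, a ∈ p ↔ a * x ∈ I := by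
  have hn : Nontrivial (A ⧸ I) := Ideal.Quotient.nontrivial_iff.mpr hI
  obtain ⟨p, hp⟩ := associatedPrimes.nonempty A (A ⧸ I)
  have hp' : IsAssociatedPrime p (A ⧸ I) := hp
  rw [isAssociatedPrime_iff] at hp'
  obtain ⟨hpr, y, hy⟩ := hp'
  obtain ⟨x, rfl⟩ := Ideal.Quotient.mk_surjective y
  have key : ∀ a, a ∈ p ↔ a * x ∈ I := by
    intro a
    rw [hy, Submodule.mem_colon_singleton, Submodule.mem_bot, ← Ideal.Quotient.eq_zero_iff_mem]
    rfl
  refine ⟨x, fun hx => hpr.ne_top ?_, p, hpr, key⟩
  rw [Ideal.eq_top_iff_one, key, one_mul]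
  exact hx

/-- a localisation of a quotient is a localisation -/
theorem away_of_quot {B C T : Type} [CommRing B] [CommRing C] [CommRing T] [Algebra B C]
    [Algebra C T] [Algebra B T] [IsScalarTower B C T] (hs : Function.Surjective (algebraMap B C))
    (u : B) [IsLocalization.Away (algebraMap B C u) T]
    (hk : ∀ b, algebraMap B C b = 0 → ∃ n : ℕ, u ^ n * b = 0) : IsLocalization.Away u T := by
  have hBT : ∀ b, algebraMap B T b = algebraMap C T (algebraMap B C b) :=
    fun b => IsScalarTower.algebraMap_apply B C T b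
  have hu : IsUnit (algebraMap B T u) := by
    rw [hBT]
    exact IsLocalization.Away.algebraMap_isUnit (S := T) (algebraMap B C u)
  refine ⟨?_, ?_, ?_⟩
  · rintro ⟨_, n, rfl⟩
    change IsUnit (algebraMap B T (u ^ n))
    rw [map_pow]
    exact hu.pow n
  · intro z
    obtain ⟨n, y, hy⟩ := IsLocalization.Away.surj (S := T) (algebraMap B C u) z
    obtain ⟨y, rfl⟩ := hs y
    refine ⟨(y, ⟨u ^ n, n, rfl⟩), ?_⟩
    change z * algebraMap B T (u ^ n) = algebraMap B T y
    rw [map_pow, hBT, hBT]
    exact hy
  · intro x y hxy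
    rw [hBT, hBT] at hxy
    obtain ⟨n, hn⟩ := IsLocalization.Away.exists_of_eq (S := T) (algebraMap B C u) hxy
    rw [← map_pow, ← map_mul, ← map_mul] at hn
    obtain ⟨k, hk⟩ := hk (u ^ n * x - u ^ n * y) (by rw [map_sub, hn, sub_self])
    refine ⟨⟨u ^ (k + n), k + n, rfl⟩, ?_⟩
    change u ^ (k + n) * x = u ^ (k + n) * y
    rw [pow_add]
    linear_combination hk

/-- **NOE**, corrected -/
theorem noe : S_NOE' := by
  intro R _ _ P hiso htot h0 A _ _ _ hD
  have hN : IsNoetherianRing A := Algebra.FiniteType.isNoetherianRing R A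
  have isoA : ∀ {B C : Type} [CommRing B] [CommRing C] [Algebra R B] [Algebra R C]
      [Algebra.FiniteType R B] (_ : B ≃ₐ[R] C), P (aff R B) → P (aff R C) := by
    intro B C _ _ _ _ _ e h
    exact hiso (ft_aff False) ⟨(affIso e).symm⟩ h
  have key : ∀ I : Ideal A, P (aff R (A ⧸ I)) := by
    intro I
    induction I using IsNoetherian.induction with
    | hgt I ih =>
    by_cases hI : I = ⊤
    · subst hI
      exact h0 _ (Ideal.Quotient.subsingleton_iff.mpr rfl)
    obtain ⟨x, hx, p, hp, hxp⟩ := exists_assoc I hI
    -- the closed part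
    have hclo : ∀ u : A, u ∉ I → P (aff R ((A ⧸ I) ⧸ Ideal.span {Ideal.Quotient.mk I u})) := by
      intro u hu
      have h1 := ih (I ⊔ Ideal.span {u}) (lt_of_le_of_ne le_sup_left fun h => hu (by
        rw [h]
        exact Ideal.mem_sup_right (Ideal.mem_span_singleton_self u)))
      have h2 : Ideal.map (Ideal.Quotient.mkₐ R I) (Ideal.span {u}) =
          Ideal.span {Ideal.Quotient.mk I u} := by
        rw [Ideal.map_span, Set.image_singleton]
        rfl
      rw [← h2]
      exact isoA (DoubleQuot.quotQuotEquivQuotSupₐ R I (Ideal.span {u})).symm h1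
    have htot' : ∀ u : A ⧸ I, P (aff R ((A ⧸ I) ⧸ Ideal.span {u})) →
        P (aff R (Localization.Away u)) → P (aff R (A ⧸ I)) := fun u h1 h2 =>
      htot _ _ (ft_aff False) (triple_away u) h1 h2
    by_cases hxx : x ∈ p
    · -- `x ^ 2 = 0`
      refine htot' (Ideal.Quotient.mk I x) (hclo x hx) (h0 _ ?_)
      refine IsLocalization.subsingleton (M := Submonoid.powers (Ideal.Quotient.mk I x)) ⟨2, ?_⟩
      simp only
      rw [← map_pow, Ideal.Quotient.eq_zero_iff_mem, sq]
      exact (hxp x).1 hxx
    · obtain ⟨w, hw, hPw⟩ := hD p hp (Ideal.Quotient.mk p x) (fun h => hxx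
        (Ideal.Quotient.eq_zero_iff_mem.1 h))
      obtain ⟨n, y, hy⟩ := IsLocalization.Away.surj (S := Localization.Away (Ideal.Quotient.mk p x))
        (Ideal.Quotient.mk p x) w
      obtain ⟨c, rfl⟩ := Ideal.Quotient.mk_surjective y
      have hIp : I ≤ p := fun a ha => (hxp a).2 (Ideal.mul_mem_right x I ha)
      have hc : c ∉ p := by
        intro h
        rw [Ideal.Quotient.eq_zero_iff_mem.2 h, map_zero] at hy
        have hun : IsUnit (algebraMap (A ⧸ p) (Localization.Away (Ideal.Quotient.mk p x))
            (Ideal.Quotient.mk p x)) := IsLocalization.Away.algebraMap_isUnit _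
        exact hw ((hun.pow n).mul_left_eq_zero.1 hy)
      have hxc : x * c ∉ I := by
        rw [mul_comm]
        exact fun h => hc ((hxp c).2 h)
      refine htot' (Ideal.Quotient.mk I (x * c)) (hclo _ hxc) ?_
      let C := A ⧸ p
      let V := Localization.Away (Ideal.Quotient.mk p x)
      let T := Localization.Away w
      have hun : IsUnit (algebraMap C V (Ideal.Quotient.mk p x)) :=
        IsLocalization.Away.algebraMap_isUnit _
      have hass : Associated (algebraMap C V (Ideal.Quotient.mk p c)) w := by
        rw [← hy]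
        exact (associated_mul_unit_right w _ (hun.pow n)).symm
      have hT : IsLocalization.Away (Ideal.Quotient.mk p x * Ideal.Quotient.mk p c) T :=
        IsLocalization.Away.mul_of_associated (S := V) (Ideal.Quotient.mk p x)
          (Ideal.Quotient.mk p c) w hass
      let _ : Algebra (A ⧸ I) C := (Ideal.Quotient.factor hIp).toAlgebra
      have hst : IsScalarTower (A ⧸ I) C T := inferInstance
      have hmap : ∀ a, algebraMap (A ⧸ I) C (Ideal.Quotient.mk I a) = Ideal.Quotient.mk p a :=
        fun a => rfl
      have hT2 : IsLocalization.Away (algebraMap (A ⧸ I) C (Ideal.Quotient.mk I (x * c))) T := by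
        rw [hmap, map_mul]
        exact hT
      have hT3 : IsLocalization.Away (Ideal.Quotient.mk I (x * c)) T := by
        refine away_of_quot (C := C) ?_ _ ?_
        · intro z
          obtain ⟨a, rfl⟩ := Ideal.Quotient.mk_surjective z
          exact ⟨Ideal.Quotient.mk I a, rfl⟩
        · intro b hb
          obtain ⟨a, rfl⟩ := Ideal.Quotient.mk_surjective b
          rw [hmap, Ideal.Quotient.eq_zero_iff_mem] at hb
          refine ⟨1, ?_⟩
          rw [pow_one, ← map_mul, Ideal.Quotient.eq_zero_iff_mem]
          have := Ideal.mul_mem_left I c ((hxp a).1 hb)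
          convert this using 1
          ring
      let e : Localization.Away (Ideal.Quotient.mk I (x * c)) ≃ₐ[A ⧸ I] T :=
        IsLocalization.algEquiv (Submonoid.powers (Ideal.Quotient.mk I (x * c))) _ T
      let e2 : T ≃ₐ[R] Localization.Away (Ideal.Quotient.mk I (x * c)) :=
        AlgEquiv.ofRingEquiv (f := e.symm.toRingEquiv) (by
          intro r
          have h8 : algebraMap R T r = algebraMap (A ⧸ I) T (algebraMap R (A ⧸ I) r) := by
            have h9 : algebraMap R T r = algebraMap C T (algebraMap R C r) := by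
              rw [IsScalarTower.algebraMap_apply R V T, IsScalarTower.algebraMap_apply R C V,
                IsScalarTower.algebraMap_apply C V T]
            rw [h9]
            rfl
          change e.symm (algebraMap R T r) = _
          rw [h8, e.symm.commutes, ← IsScalarTower.algebraMap_apply])
      have hV : Algebra.FiniteType R V :=
        Algebra.FiniteType.trans (S := C) inferInstance inferInstance
      have hTf : Algebra.FiniteType R T :=
        Algebra.FiniteType.trans (S := V) hV inferInstance
      exact isoA e2 hPw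
  have h := key ⊥
  exact isoA (AlgEquiv.quotientBot R A) h

end Pool.Agent.P8H4.LV
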