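import Pool.Agent.P8H48.LV.Stm

/-!
# Project LV of helper48, package PTI (helper4): an isomorphism of rings
-/

set_option autoImplicit false

open MvPolynomial Pool.Agent.Y116.UV

namespace Pool.Agent.P8H4.LV

open Pool.Agent.P8H48.LV

noncomputable section

theorem alg_id {B : Type} [CommRing B] {r : ℕ} (x y c : Fin r → B) (z : B)
    (rel : ∑ i, c i * y i = 1) :
    z + ∑ i, (x i - (z + ∑ j, x j * c j) * y i) * c i = 0 := by
  have h1 : ∑ i, (x i - (z + ∑ j, x j * c j) * y i) * c i =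
      ∑ i, x i * c i - (z + ∑ j, x j * c j) * ∑ i, c i * y i := by
    rw [Finset.mul_sum, ← Finset.sum_sub_distrib]
    exact Finset.sum_congr rfl fun i _ => by ring
  rw [h1, rel]
  ring

variable {A : Type} [CommRing A] (h : A) {r : ℕ} (g : Fin r → A)

abbrev LL : Type := MvPolynomial (Fin 1) (Jou (gh h g))

abbrev RR : Type := MvPolynomial (Fin r) (Jou g)

def yR (i : Fin r) : RR g := C (Ideal.Quotient.mk _ (X i))

def SR : RR g := algebraMap A (RR g) h + ∑ i, X i * algebraMap A (RR g) (g i)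

theorem relR : ∑ i, algebraMap A (RR g) (g i) * yR g i = 1 := by
  have h1 : Ideal.Quotient.mk (Ideal.span {∑ l, C (g l) * X l - 1}) (∑ l, C (g l) * X l - 1) =
      (0 : Jou g) := Ideal.Quotient.eq_zero_iff_mem.2 (Ideal.mem_span_singleton_self _)
  have h2 : (C (Ideal.Quotient.mk (Ideal.span {∑ l, C (g l) * X l - 1})
      (∑ l, C (g l) * X l - 1)) : RR g) = 0 := by rw [h1, map_zero]
  rw [map_sub, map_sub, map_one, map_one, map_sum, map_sum, sub_eq_zero] at h2
  rw [← h2]
  refine Finset.sum_congr rfl fun i _ => ?_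
  rw [map_mul, map_mul]
  rfl

def yL (i : Fin r) : LL h g := C (Ideal.Quotient.mk _ (X i))

def wL (i : Fin r) : LL h g := C (Ideal.Quotient.mk _ (C (Ideal.Quotient.mk _ (X i))))

theorem relL1 : algebraMap A (LL h g) h + ∑ i, wL h g i * algebraMap A (LL h g) (g i) = 0 := by
  have h1 : Ideal.Quotient.mk (Ideal.span {C h + ∑ i, X i * C (g i)}) (C h + ∑ i, X i * C (g i)) =
      (0 : Hh h g) := Ideal.Quotient.eq_zero_iff_mem.2 (Ideal.mem_span_singleton_self _)
  have h2 : algebraMap (Hh h g) (LL h g) (Ideal.Quotient.mk (Ideal.span {C h + ∑ i, X i * C (g i)})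
      (C h + ∑ i, X i * C (g i))) = 0 := by rw [h1, map_zero]
  rw [map_add, map_add, map_sum, map_sum] at h2
  rw [← h2]
  congr 1
  refine Finset.sum_congr rfl fun i _ => ?_
  rw [map_mul, map_mul]
  rfl

theorem relL2 : ∑ i, algebraMap A (LL h g) (g i) * yL h g i = 1 := by
  have h1 : Ideal.Quotient.mk (Ideal.span {∑ l, C (gh h g l) * X l - 1})
      (∑ l, C (gh h g l) * X l - 1) =
      (0 : Jou (gh h g)) := Ideal.Quotient.eq_zero_iff_mem.2 (Ideal.mem_span_singleton_self _)
  have h2 : (C (Ideal.Quotient.mk (Ideal.span {∑ l, C (gh h g l) * X l - 1})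
      (∑ l, C (gh h g l) * X l - 1)) : LL h g) = 0 := by rw [h1, map_zero]
  rw [map_sub, map_sub, map_one, map_one, map_sum, map_sum, sub_eq_zero] at h2
  rw [← h2]
  refine Finset.sum_congr rfl fun i _ => ?_
  rw [map_mul, map_mul]
  rfl

/-- on the ring `Hh` -/
def φ1 : Hh h g →ₐ[A] RR g :=
  Ideal.Quotient.liftₐ _ (aeval (fun i => (X i : RR g) - SR h g * yR g i)) (by
    intro a ha
    obtain ⟨b, rfl⟩ := Ideal.mem_span_singleton'.1 ha
    have h1 : aeval (fun i => (X i : RR g) - SR h g * yR g i) (C h + ∑ i, X i * C (g i)) = 0 := by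
      rw [map_add, map_sum, aeval_C]
      simp only [map_mul, aeval_X, aeval_C]
      exact alg_id (fun i => X i) (yR g) (fun i => algebraMap A (RR g) (g i))
        (algebraMap A (RR g) h) (relR g)
    rw [map_mul, h1, mul_zero])

theorem φ1_mk (p : MvPolynomial (Fin r) A) : φ1 h g (Ideal.Quotient.mk _ p) =
    aeval (fun i => (X i : RR g) - SR h g * yR g i) p := rfl

def φ2 : Jou (gh h g) →ₐ[A] RR g :=
  Ideal.Quotient.liftₐ _ (aevalTower (φ1 h g) (yR g)) (by
    intro a ha
    obtain ⟨b, rfl⟩ := Ideal.mem_span_singleton'.1 ha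
    have h1 : aevalTower (φ1 h g) (yR g) (∑ l, C (gh h g l) * X l - 1) = 0 := by
      rw [map_sub, map_sum, map_one]
      simp only [map_mul, aevalTower_X, aevalTower_C]
      have h3 : ∀ i, φ1 h g (gh h g i) = algebraMap A (RR g) (g i) := by
        intro i
        unfold gh
        rw [φ1_mk, aeval_C]
      simp only [h3]
      rw [relR, sub_self]
    rw [map_mul, h1, mul_zero])

theorem φ2_mk (p : MvPolynomial (Fin r) (Hh h g)) : φ2 h g (Ideal.Quotient.mk _ p) =
    aevalTower (φ1 h g) (yR g) p := rfl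

def φ : LL h g →ₐ[A] RR g := aevalTower (φ2 h g) (fun _ => SR h g)

def ψ1 : Jou g →ₐ[A] LL h g :=
  Ideal.Quotient.liftₐ _ (aeval (yL h g)) (by
    intro a ha
    obtain ⟨b, rfl⟩ := Ideal.mem_span_singleton'.1 ha
    have h1 : aeval (yL h g) (∑ l, C (g l) * X l - 1) = 0 := by
      rw [map_sub, map_sum, map_one]
      simp only [map_mul, aeval_X, aeval_C]
      rw [relL2, sub_self]
    rw [map_mul, h1, mul_zero])

theorem ψ1_mk (p : MvPolynomial (Fin r) A) : ψ1 h g (Ideal.Quotient.mk _ p) =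
    aeval (yL h g) p := rfl

def ψ : RR g →ₐ[A] LL h g := aevalTower (ψ1 h g) (fun i => wL h g i + X 0 * yL h g i)

theorem φ_yL (i : Fin r) : φ h g (yL h g i) = yR g i := by
  unfold φ yL
  rw [aevalTower_C, φ2_mk, aevalTower_X]

theorem φ_wL (i : Fin r) : φ h g (wL h g i) = X i - SR h g * yR g i := by
  unfold φ wL
  rw [aevalTower_C, φ2_mk, aevalTower_C, φ1_mk, aeval_X]

theorem φ_X (i : Fin 1) : φ h g (X i) = SR h g := by
  unfold φ
  rw [aevalTower_X]

theorem ψ_yR (i : Fin r) : ψ h g (yR g i) = yL h g i := by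
  unfold ψ yR
  rw [aevalTower_C, ψ1_mk, aeval_X]

theorem ψ_X (i : Fin r) : ψ h g (X i) = wL h g i + X 0 * yL h g i := by
  unfold ψ
  rw [aevalTower_X]

theorem ψ_SR : ψ h g (SR h g) = X 0 := by
  unfold SR
  rw [map_add, map_sum, AlgHom.commutes]
  simp only [map_mul, ψ_X, AlgHom.commutes, add_mul, Finset.sum_add_distrib]
  have h1 : ∑ i, X 0 * yL h g i * algebraMap A (LL h g) (g i) = X 0 := by
    have : ∑ i, X 0 * yL h g i * algebraMap A (LL h g) (g i) =
        X 0 * ∑ i, algebraMap A (LL h g) (g i) * yL h g i := by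
      rw [Finset.mul_sum]
      exact Finset.sum_congr rfl fun i _ => by ring
    rw [this, relL2, mul_one]
  rw [h1, ← add_assoc, relL1, zero_add]

theorem comp1 : (φ h g).comp (ψ h g) = AlgHom.id A (RR g) := by
  apply MvPolynomial.algHom_ext'
  · apply Ideal.Quotient.algHom_ext
    apply MvPolynomial.algHom_ext
    intro i
    show φ h g (ψ h g (yR g i)) = yR g i
    rw [ψ_yR, φ_yL]
  · intro i
    show φ h g (ψ h g (X i)) = X i
    rw [ψ_X, map_add, map_mul, φ_wL, φ_X, φ_yL]
    ring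

theorem comp2 : (ψ h g).comp (φ h g) = AlgHom.id A (LL h g) := by
  apply MvPolynomial.algHom_ext'
  · apply Ideal.Quotient.algHom_ext
    apply MvPolynomial.algHom_ext'
    · apply Ideal.Quotient.algHom_ext
      apply MvPolynomial.algHom_ext
      intro i
      show ψ h g (φ h g (wL h g i)) = wL h g i
      rw [φ_wL, map_sub, map_mul, ψ_X, ψ_SR, ψ_yR]
      ring
    · intro i
      show ψ h g (φ h g (yL h g i)) = yL h g i
      rw [φ_yL, ψ_yR]
  · intro i
    show ψ h g (φ h g (X i)) = X i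
    rw [φ_X, ψ_SR, Subsingleton.elim i 0]

/-- **PTI** -/
theorem pti : S_PTI := fun _ _ h _ g => ⟨AlgEquiv.ofAlgHom (φ h g) (ψ h g) (comp1 h g) (comp2 h g)⟩

end

end Pool.Agent.P8H4.LV
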